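import Pool.Agent.COV.StmtsB

set_option autoImplicit false

/-!
# Row HSA (MP_160b6c_nt, squad COV): translates of the fixed specialisation by generic elements
-/

namespace Pool.Agent.COV.H86

open Polynomial Pool.Agent.KDT.Z Pool.Agent.COV

theorem hsa (ghi : GhiStmt) (_gnl : GnlStmt) (hsp : HspStatement) (cma : CmaStatement)
    (hemb : EmbStatement) : HsaStmt := by
  intro k U _ _ _ f g J _ th cl act Jk q H0 t0 ctx
  classical
  have env := ctx.env
  have jk := ctx.jk
  haveI : IsAlgClosed U := env.oc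
  haveI : CharZero k := env.ch
  haveI : CharZero U := charZero_of_injective_algebraMap (algebraMap k U).injective
  have hgt0 : On g (emb U t0) := ((hemb k U f g env.gm t0 t0).2.2.2.1).2 ctx.ot
  obtain ⟨C1, hC1⟩ := ghi U g J th cl jk.toJG 0 q ctx.on
  obtain ⟨C2, hC2⟩ := ghi U g J th cl jk.toJG 0 (emb U t0) hgt0
  refine ⟨C1 ∪ C2, ?_⟩
  intro h hh hC
  obtain ⟨x, hx, hhx, hr, hro⟩ := hC1 h (fun y hy => hC y (Finset.mem_union_left _ hy))
  obtain ⟨x', hx', hhx', hr', hro'⟩ := hC2 h (fun y hy => hC y (Finset.mem_union_right _ hy))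
  rw [zero_add] at hhx hhx'
  have hxx : x' = x := jk.cl_inj x' x hx' hx (hhx'.symm.trans hhx)
  subst hxx
  obtain ⟨hJ, hS⟩ := (ctx.h0 h).1 hh
  rcases (jk.mem_k h).1 hJ with h0 | ⟨z, _, hz⟩ | ⟨t, hft, hgt, hct⟩
  · exact absurd (hhx.symm.trans h0) (jk.cl_ne x' hx)
  · exact absurd (hhx.symm.trans hz) (jk.cl_th x' z hx)
  · have hxt : x' = emb U t := jk.cl_inj x' (emb U t) hx hgt (hhx.symm.trans hct)
    subst hxt
    have e1 := (hemb k U f g env.gm t t0).1
    have e2 := (hemb k U f g env.gm t t0).2.1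
    have hr1 : rr t0 t ≠ 0 := by
      intro hz
      rw [(cma.1 k t0 t).1] at hz
      exact hr' (by rw [e1, hz, map_zero])
    have hr2 : ro t0 t ≠ 0 := by
      intro hz
      rw [(cma.1 k t0 t).2] at hz
      exact hro' (by rw [e2, hz, map_zero])
    have hq1 : rr q (emb U t) ≠ 0 := by
      rw [(cma.1 U q (emb U t)).1]
      exact hr
    have hq2 : ro q (emb U t) ≠ 0 := by
      rw [(cma.1 U q (emb U t)).2]
      exact hro
    have hstb : cl (emb U t) ∈ Stb cl act q := by
      rw [← hct]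
      exact hS
    obtain ⟨ha, hb, hc⟩ := hsp k U f g env J th cl act Jk jk q t t0 ctx.on hft ctx.ot hstb
      hq1 hq2 ctx.sp hr1 hr2
    exact ⟨cmp (f.coeff 4) t0 t, ha, hb, by rw [hc, ← hct]⟩

end Pool.Agent.COV.H86
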