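import Pool.Agent.COV.StmtsD

set_option autoImplicit false

/-!
# Squad COV, row LR1 (MP_160b6c_nt), adapted from FA8 by helper60
-/

namespace Pool.Agent.COV.H86

open Polynomial Pool.Agent.COV Pool.Agent.TTC

theorem fin_bd (H : ℕ) (P : ℤ → Prop) : {t : ℤ | |t| ≤ (H : ℤ) ∧ P t}.Finite := by
  apply (Set.finite_Icc (-(H : ℤ)) H).subset
  rintro t ⟨ht, -⟩
  exact ⟨(abs_le.1 ht).1, (abs_le.1 ht).2⟩

theorem lr1 (hFAC : FacStmt) (hCN2 : Cn2Stmt) : Lr1Stmt := by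
  intro A δ hδ
  obtain ⟨A1, hA1⟩ := hFAC A
  obtain ⟨A2, hA2⟩ : ∃ A2, A2 = 2 * A1 + 2 := ⟨_, rfl⟩
  obtain ⟨ε, C0, hε, hC0, hcnt⟩ := hCN2 A2 δ hδ
  refine ⟨ε, C0 + A, hε, by positivity, ?_⟩
  intro H D E hH hSD hSE hD0 ht
  obtain ⟨t₀, hDt, hEt⟩ := ht
  have hH1 : (1 : ℝ) ≤ (H : ℝ) := by exact_mod_cast hH
  have hHZ : (1 : ℤ) ≤ (H : ℤ) := by exact_mod_cast hH
  have hHδ : (1 : ℝ) ≤ (H : ℝ) ^ δ := Real.one_le_rpow hH1 hδ.le
  obtain ⟨φ, ρ, hφD, hφ1, hφS, hρ1, hρA, hφE⟩ := hA1 H D E t₀ hH hSD hSE hD0 hDt hEt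
  have hpow : (H : ℤ) ^ A1 ≤ (H : ℤ) ^ A2 := pow_le_pow_right₀ hHZ (by omega)
  have hpow0 : (0 : ℤ) < (H : ℤ) ^ A1 := by positivity
  have hA2Z : (A2 : ℤ) = 2 * A1 + 2 := by exact_mod_cast hA2
  have hA10 : (0 : ℤ) ≤ (A1 : ℤ) := by positivity
  have hφS2 : Siz A2 (A2 * (H : ℤ) ^ A2) φ := by
    refine ⟨hφS.1.trans (by omega), fun n => (hφS.2 n).trans ?_⟩
    exact mul_le_mul (by linarith) hpow hpow0.le (by positivity)
  have hn0 : (ρ : ℤ) ≤ A2 * (H : ℤ) ^ A2 := by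
    calc (ρ : ℤ) ≤ A1 * (H : ℤ) ^ A1 := hρA
      _ ≤ A2 * (H : ℤ) ^ A2 := mul_le_mul (by linarith) hpow hpow0.le (by positivity)
  have h5 := hcnt H φ ρ hH hφ1 hφS2 hρ1 hn0
  have hsub : {t : ℤ | |t| ≤ (H : ℤ) ∧ (D.eval t = 0 ∨
      (rad2 (D.eval t) (E.eval t) : ℝ) < (H : ℝ) ^ ε)} ⊆
      {t : ℤ | |t| ≤ (H : ℤ) ∧ (φ.eval t = 0 ∨
        ((∏ p ∈ (φ.eval t).natAbs.primeFactors.filter (fun p => ¬ p ∣ ρ), p : ℕ) : ℝ)
          < (H : ℝ) ^ ε)} ∪ (D.roots.toFinset : Set ℤ) := by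
    rintro t ⟨ht, hbad⟩
    by_contra hcon
    rw [Set.mem_union, not_or] at hcon
    obtain ⟨hc1, hc2⟩ := hcon
    have hDt0 : D.eval t ≠ 0 := by
      intro h
      apply hc2
      rw [Finset.mem_coe, Multiset.mem_toFinset, Polynomial.mem_roots hD0]
      exact h
    have hc3 : (H : ℝ) ^ ε ≤
        ((∏ p ∈ (φ.eval t).natAbs.primeFactors.filter (fun p => ¬ p ∣ ρ), p : ℕ) : ℝ) := by
      by_contra h
      apply hc1
      exact ⟨ht, Or.inr (not_le.1 h)⟩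
    rcases hbad with hbad | hbad
    · exact hDt0 hbad
    · have hdvd : (∏ p ∈ (φ.eval t).natAbs.primeFactors.filter (fun p => ¬ p ∣ ρ), p : ℕ) ∣
          rad2 (D.eval t) (E.eval t) := by
        unfold rad2
        apply Finset.prod_dvd_prod_of_subset
        intro p hp
        rw [Finset.mem_filter] at hp ⊢
        have h1 := Nat.prime_of_mem_primeFactors hp.1
        have h2 : (p : ℤ) ∣ φ.eval t := Int.natCast_dvd.2 (Nat.dvd_of_mem_primeFactors hp.1)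
        refine ⟨?_, ?_⟩
        · rw [Nat.mem_primeFactors]
          refine ⟨h1, Int.natCast_dvd.1 (h2.trans (Polynomial.eval_dvd hφD)), ?_⟩
          exact Int.natAbs_ne_zero.2 hDt0
        · intro h3
          exact hp.2 (hφE t p h1 h2 h3)
      have hpos : 0 < rad2 (D.eval t) (E.eval t) := by
        unfold rad2
        apply Finset.prod_pos
        intro p hp
        exact (Nat.prime_of_mem_primeFactors (Finset.mem_filter.1 hp).1).pos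
      have hle : ((∏ p ∈ (φ.eval t).natAbs.primeFactors.filter (fun p => ¬ p ∣ ρ), p : ℕ) : ℝ) ≤
          (rad2 (D.eval t) (E.eval t) : ℝ) := by
        exact_mod_cast Nat.le_of_dvd hpos hdvd
      linarith
  have h2 := Set.ncard_le_ncard hsub ((fin_bd _ _).union (Finset.finite_toSet _))
  have h3 := h2.trans (Set.ncard_union_le _ _)
  have h6 : (D.roots.toFinset : Set ℤ).ncard ≤ A := by
    rw [Set.ncard_coe_finset]
    exact (Multiset.toFinset_card_le _).trans ((Polynomial.card_roots' D).trans hSD.1)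
  have h7 : ({t : ℤ | |t| ≤ (H : ℤ) ∧ (D.eval t = 0 ∨
      (rad2 (D.eval t) (E.eval t) : ℝ) < (H : ℝ) ^ ε)}.ncard : ℝ) ≤
      ({t : ℤ | |t| ≤ (H : ℤ) ∧ (φ.eval t = 0 ∨
        ((∏ p ∈ (φ.eval t).natAbs.primeFactors.filter (fun p => ¬ p ∣ ρ), p : ℕ) : ℝ)
          < (H : ℝ) ^ ε)}.ncard : ℝ) + A := by
    have := h3.trans (Nat.add_le_add_left h6 _)
    exact_mod_cast this
  have h8 : (A : ℝ) ≤ A * (H : ℝ) ^ δ := le_mul_of_one_le_right (Nat.cast_nonneg A) hHδ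
  rw [add_mul]
  linarith

end Pool.Agent.COV.H86
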